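import Pool.Agent.helper62.MS.SpecA
import Pool.Agent.helper62.QU.CA1

/-!
# Row ms:AS1 (MP_07c750_an): assembly in `L²`
-/

set_option autoImplicit false

open scoped MatrixGroups ContDiff Topology UpperHalfPlane ComplexConjugate
open UpperHalfPlane MeasureTheory Filter Set

namespace Pool.Agent.MS

open Pool.Agent.RS

theorem AS1_cont {n : WithTop ℕ∞} {φ : ℍ → ℂ} (h : QU.CD n φ) : Continuous φ :=
  ((QU.CA1 ℂ).1 φ).1 ((QU.CA1 ℂ).2.1 φ 0 n bot_le h)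

theorem AS1_int {X : Type} [MeasurableSpace X] (μ : Measure X) [IsFiniteMeasure μ] (f : X → ℝ)
    (hf : Measurable f) (Cf : ∃ m : ℝ, ∀ x, |f x| ≤ m) : Integrable f μ := by
  obtain ⟨m, hm⟩ := Cf
  exact Integrable.of_bound hf.aestronglyMeasurable m (Eventually.of_forall fun x => by
    rw [Real.norm_eq_abs]; exact hm x)

theorem AS1_mul {X : Type} {f g : X → ℝ} (Cf : ∃ m : ℝ, ∀ x, |f x| ≤ m) (Cg : ∃ m : ℝ, ∀ x, |g x| ≤ m) :
    ∃ m : ℝ, ∀ x, |f x * g x| ≤ m := by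
  obtain ⟨m, hm⟩ := Cf
  obtain ⟨n, hn⟩ := Cg
  refine ⟨m * n, fun x => ?_⟩
  rw [abs_mul]
  exact mul_le_mul (hm x) (hn x) (abs_nonneg _) (le_trans (abs_nonneg _) (hm x))

theorem AS1_cs {X : Type} [MeasurableSpace X] (μ : Measure X) [IsFiniteMeasure μ] (f g : X → ℝ)
    (hf : Measurable f) (hg : Measurable g) (Cf : ∃ m : ℝ, ∀ x, |f x| ≤ m) (Cg : ∃ m : ℝ, ∀ x, |g x| ≤ m) :
    ∫ x, f x * g x ∂μ ≤ Real.sqrt (∫ x, f x ^ 2 ∂μ) * Real.sqrt (∫ x, g x ^ 2 ∂μ) := by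
  have i1 : Integrable (fun x => f x * f x) μ := AS1_int μ _ (hf.mul hf) (AS1_mul Cf Cf)
  have i2 : Integrable (fun x => f x * g x) μ := AS1_int μ _ (hf.mul hg) (AS1_mul Cf Cg)
  have i3 : Integrable (fun x => g x * g x) μ := AS1_int μ _ (hg.mul hg) (AS1_mul Cg Cg)
  have e1 : (∫ x, f x ^ 2 ∂μ) = ∫ x, f x * f x ∂μ := by simp only [sq]
  have e2 : (∫ x, g x ^ 2 ∂μ) = ∫ x, g x * g x ∂μ := by simp only [sq]
  rw [e1, e2]
  have h1 : ∀ t : ℝ, 0 ≤ (∫ x, f x * f x ∂μ) * (t * t) + (-(2 * ∫ x, f x * g x ∂μ)) * t + ∫ x, g x * g x ∂μ := by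
    intro t
    have h2 : (∫ x, f x * f x ∂μ) * (t * t) + (-(2 * ∫ x, f x * g x ∂μ)) * t + ∫ x, g x * g x ∂μ =
        ∫ x, (t * f x - g x) ^ 2 ∂μ := by
      have h3 : (fun x => (t * f x - g x) ^ 2) = fun x => (t * t) * (f x * f x) - (2 * t) * (f x * g x) + g x * g x := by
        funext x; ring
      have i4 : Integrable (fun x => (t * t) * (f x * f x) - (2 * t) * (f x * g x)) μ :=
        (i1.const_mul (t * t)).sub (i2.const_mul (2 * t))
      rw [h3, integral_add i4 i3, integral_sub (i1.const_mul (t * t)) (i2.const_mul (2 * t)),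
        integral_const_mul, integral_const_mul]
      ring
    rw [h2]
    exact integral_nonneg fun x => sq_nonneg _
  have h2 := discrim_le_zero h1
  unfold discrim at h2
  have h3 : (∫ x, f x * g x ∂μ) ^ 2 ≤ (∫ x, f x * f x ∂μ) * ∫ x, g x * g x ∂μ := by nlinarith
  have h4 : 0 ≤ ∫ x, f x * f x ∂μ := integral_nonneg fun x => mul_self_nonneg _
  rw [← Real.sqrt_mul h4]
  exact Real.le_sqrt_of_sq_le h3

/-- Minkowski's inequality -/
theorem AS1_mink {X : Type} [MeasurableSpace X] (μ : Measure X) [IsFiniteMeasure μ] (f g h : X → ℝ)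
    (hf : Measurable f) (hg : Measurable g) (Cf : ∃ m : ℝ, ∀ x, |f x| ≤ m) (Cg : ∃ m : ℝ, ∀ x, |g x| ≤ m)
    (hh0 : ∀ x, 0 ≤ h x) (hle : ∀ x, h x ≤ f x + g x) :
    Real.sqrt (∫ x, h x ^ 2 ∂μ) ≤ Real.sqrt (∫ x, f x ^ 2 ∂μ) + Real.sqrt (∫ x, g x ^ 2 ∂μ) := by
  have i1 : Integrable (fun x => f x * f x) μ := AS1_int μ _ (hf.mul hf) (AS1_mul Cf Cf)
  have i2 : Integrable (fun x => f x * g x) μ := AS1_int μ _ (hf.mul hg) (AS1_mul Cf Cg)
  have i3 : Integrable (fun x => g x * g x) μ := AS1_int μ _ (hg.mul hg) (AS1_mul Cg Cg)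
  have e1 : (∫ x, f x ^ 2 ∂μ) = ∫ x, f x * f x ∂μ := by simp only [sq]
  have e2 : (∫ x, g x ^ 2 ∂μ) = ∫ x, g x * g x ∂μ := by simp only [sq]
  have h0 : 0 ≤ ∫ x, f x ^ 2 ∂μ := integral_nonneg fun x => sq_nonneg _
  have h0' : 0 ≤ ∫ x, g x ^ 2 ∂μ := integral_nonneg fun x => sq_nonneg _
  have h3 : (fun x => (f x + g x) ^ 2) = fun x => (f x * f x + 2 * (f x * g x)) + g x * g x := by
    funext x; ring
  have i4 : Integrable (fun x => f x * f x + 2 * (f x * g x)) μ := i1.add (i2.const_mul 2)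
  have i5 : Integrable (fun x => (f x + g x) ^ 2) μ := by rw [h3]; exact i4.add i3
  have h1 : ∫ x, h x ^ 2 ∂μ ≤ ∫ x, (f x + g x) ^ 2 ∂μ :=
    integral_mono_of_nonneg (Eventually.of_forall fun x => sq_nonneg _) i5
      (Eventually.of_forall fun x => pow_le_pow_left₀ (hh0 x) (hle x) 2)
  have h2 : ∫ x, (f x + g x) ^ 2 ∂μ = (∫ x, f x ^ 2 ∂μ) + 2 * (∫ x, f x * g x ∂μ) + ∫ x, g x ^ 2 ∂μ := by
    rw [h3, integral_add i4 i3, integral_add i1 (i2.const_mul 2), integral_const_mul, e1, e2]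
  have h4 := AS1_cs μ f g hf hg Cf Cg
  have s1 := Real.sq_sqrt h0
  have s2 := Real.sq_sqrt h0'
  rw [Real.sqrt_le_left (add_nonneg (Real.sqrt_nonneg _) (Real.sqrt_nonneg _))]
  nlinarith

theorem AS1_num (r q X Y1 Y2 η S1 S2 : ℝ) (hr : 0 < r) (hη : 0 ≤ η) (h1 : 0 ≤ S1) (h2 : 0 ≤ S2) (hY1 : 0 ≤ Y1)
    (h : q * Real.sqrt X ≤ Real.sqrt (S1 * S2 * Y1) + Real.sqrt (((1 + η) / r) * (((1 + η) / r) * Y2))) :
    r * q * Real.sqrt (r * X) ≤ Real.sqrt (r ^ 2 * S1 * S2 * (r * Y1)) + (1 + η) * Real.sqrt (r * Y2) := by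
  have e1 : Real.sqrt (r * X) = Real.sqrt r * Real.sqrt X := Real.sqrt_mul hr.le _
  have e2 : Real.sqrt (r * Y2) = Real.sqrt r * Real.sqrt Y2 := Real.sqrt_mul hr.le _
  have e3 : Real.sqrt (r ^ 2 * S1 * S2 * (r * Y1)) = r * Real.sqrt r * Real.sqrt (S1 * S2 * Y1) := by
    rw [show r ^ 2 * S1 * S2 * (r * Y1) = r ^ 2 * (r * (S1 * S2 * Y1)) by ring, Real.sqrt_mul (sq_nonneg r),
      Real.sqrt_sq hr.le, Real.sqrt_mul hr.le]
    ring
  have hd : 0 ≤ (1 + η) / r := div_nonneg (by linarith) hr.le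
  have e4 : Real.sqrt (((1 + η) / r) * (((1 + η) / r) * Y2)) = ((1 + η) / r) * Real.sqrt Y2 := by
    rw [← mul_assoc, Real.sqrt_mul (mul_nonneg hd hd), Real.sqrt_mul_self hd]
  rw [e4] at h
  rw [e1, e2, e3]
  have h5 : 0 ≤ r * Real.sqrt r := mul_nonneg hr.le (Real.sqrt_nonneg _)
  have h6 := mul_le_mul_of_nonneg_left h h5
  have h7 : r * Real.sqrt r * (Real.sqrt (S1 * S2 * Y1) + (1 + η) / r * Real.sqrt Y2) =
      r * Real.sqrt r * Real.sqrt (S1 * S2 * Y1) + (1 + η) * (Real.sqrt r * Real.sqrt Y2) := by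
    field_simp
  rw [h7] at h6
  calc r * q * (Real.sqrt r * Real.sqrt X) = r * Real.sqrt r * (q * Real.sqrt X) := by ring
    _ ≤ _ := h6

theorem AS1_per (p : SL(2, ℝ) → ℍ → ℂ) (hp : Continuous (fun x : SL(2, ℝ) × ℍ => p x.1 x.2)) (z : ℍ) :
    Continuous (fun g => p g z) := by
  have hpair : Continuous (fun g : SL(2, ℝ) => (g, z)) := continuous_id.prodMk continuous_const
  exact hp.comp hpair

theorem AS1_pint (F : Set ℍ) (p : SL(2, ℝ) → ℍ → ℂ) (hp : Continuous (fun x : SL(2, ℝ) × ℍ => p x.1 x.2)) (m mp : ℝ)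
    (hm0 : 0 ≤ m) (hmp : ∀ g z, ‖p g z‖ ≤ mp) [IsFiniteMeasure (mG.restrict (dG F))] (v : SL(2, ℝ) → ℂ)
    (hv : Measurable v) (hvb : ∀ g, ‖v g‖ ≤ m) (z : ℍ) :
    Integrable (fun g => v g * p g z) (mG.restrict (dG F)) := by
  have hms : Measurable (fun g => p g z) := (AS1_per p hp z).measurable
  have hmm : AEStronglyMeasurable (fun g => v g * p g z) (mG.restrict (dG F)) := (hv.mul hms).aestronglyMeasurable
  refine Integrable.of_bound hmm (m * mp) (Eventually.of_forall fun g => ?_)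
  rw [norm_mul]
  exact mul_le_mul (hvb g) (hmp g z) (norm_nonneg _) hm0

theorem AS1_proof (hSYB : SYB_stmt) (hREP : REP_stmt) (hSCH : SCH_stmt) (hGLC : GLC_stmt) (hGR2 : GR2_stmt)
    (hGWB : GWB_stmt) (hGFD : GFD_stmt) (hGBD : GBD_stmt) (hGPE : GPE_stmt) (hFL0 : FL0_stmt) : AS1_stmt := by
  intro Γ F c c' r s η S1 S2 φ B D hΓ hF hc hc' hr hη hφ hn hfb hfb' hB hD hBi hDi hS1 hS2 hk1 hk2
  have : SecondCountableTopology SL(2, ℝ) := hGLC.2.1
  have hT := hFL0.2.1 _ r c hc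
  have hcont : Continuous (pk r c) := AS1_cont hT.1
  have hsupp : HasCompactSupport (pk r c) := hT.2
  have hT' := hFL0.2.1 _ r c' hc'
  have hcont' : Continuous (pk r c') := AS1_cont hT'.1
  have hsupp' : HasCompactSupport (pk r c') := hT'.2
  have hφI : InvC Γ φ := ⟨AS1_cont hφ.1, hφ.2.1⟩
  obtain ⟨⟨hdm, -, hdf, -⟩, -⟩ := hGFD Γ F hΓ hF
  have hfin : IsFiniteMeasure (mG.restrict (dG F)) := ⟨by rw [Measure.restrict_apply_univ]; exact hdf⟩
  have hfinD : IsFiniteMeasure (mG.restrict (dG F ∩ D)) :=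
    ⟨by rw [Measure.restrict_apply_univ]; exact lt_of_le_of_lt (measure_mono inter_subset_left) hdf⟩
  -- the packet coefficient
  have hb : InvG Γ (Wf (pk r c) φ) := (hGWB Γ _ _ hΓ hcont hsupp hφI).1
  obtain ⟨m, hm⟩ := (hGBD Γ ℂ _ hΓ hb).1
  have hm0 : 0 ≤ m := le_trans (norm_nonneg _) (hm 1)
  set b := Wf (pk r c) φ with hbdef
  have hbm : Measurable b := hb.1.measurable
  have hv1m : Measurable (B.indicator b) := hbm.indicator hB
  have hv2m : Measurable (Bᶜ.indicator b) := hbm.indicator hB.compl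
  have hv1b : ∀ g, ‖B.indicator b g‖ ≤ m := fun g =>
    (norm_indicator_le_norm_self b g).trans (hm g)
  have hv2b : ∀ g, ‖Bᶜ.indicator b g‖ ≤ m := fun g =>
    (norm_indicator_le_norm_self b g).trans (hm g)
  have hv1i : ∀ (γ : Γ) (g : SL(2, ℝ)), B.indicator b ((γ : SL(2, ℝ)) * g) = B.indicator b g := by
    intro γ g
    by_cases h : g ∈ B
    · rw [indicator_of_mem h, indicator_of_mem ((hBi γ g).2 h), hb.2]
    · rw [indicator_of_notMem h, indicator_of_notMem (fun h' => h ((hBi γ g).1 h'))]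
  -- the frame bounds
  have hκ : 0 ≤ (1 + η) / r := div_nonneg (by linarith) hr.le
  have hfr : ∀ u : ℍ → ℂ, InvC Γ u → qn F c r u ≤ (1 + η) / r * nn F u := by
    intro u hu
    have h1 := hfb u hu
    rw [div_mul_eq_mul_div, le_div_iff₀ hr]
    linarith
  have hfr' : ∀ u : ℍ → ℂ, InvC Γ u → qn F c' r u ≤ (1 + η) / r * nn F u := by
    intro u hu
    have h1 := hfb' u hu
    rw [div_mul_eq_mul_div, le_div_iff₀ hr]
    linarith
  obtain ⟨w1I, -⟩ := hSYB Γ F (pk r c) _ hΓ hF hcont hsupp hκ hfr _ hv1m ⟨m, hv1b⟩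
  obtain ⟨w2I, w2n⟩ := hSYB Γ F (pk r c) _ hΓ hF hcont hsupp hκ hfr _ hv2m ⟨m, hv2b⟩
  -- the periodisation
  have hcc : Continuous (fun z => conj (pk r c z)) := Complex.continuous_conj.comp hcont
  have hcs : HasCompactSupport (fun z => conj (pk r c z)) := by
    refine hsupp.mono' (fun z hz => ?_)
    apply subset_closure
    intro h
    apply hz
    change conj (pk r c z) = 0
    rw [h, map_zero]
  obtain ⟨-, hpc, -, -, -, ⟨mp, hmp⟩, -⟩ := hGPE Γ F _ hΓ hF hcc hcs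
  have hpI : ∀ (v : SL(2, ℝ) → ℂ), Measurable v → (∀ g, ‖v g‖ ≤ m) → ∀ z,
      Integrable (fun g => v g * per Γ (fun z => conj (pk r c z)) g z) (mG.restrict (dG F)) := by
    intro v hv hvb z
    exact AS1_pint F (per Γ (fun z => conj (pk r c z))) hpc m mp hm0 hmp v hv hvb z
  set w1 := sy Γ F (fun z => conj (pk r c z)) (B.indicator b) with hw1
  set w2 := sy Γ F (fun z => conj (pk r c z)) (Bᶜ.indicator b) with hw2
  have hq : qn F c r φ = bk (cc c) r s := by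
    rw [(hGR2 Γ F hΓ hF s φ hφ).2 c r hc, hn, one_mul]
  have hsum : ∀ z, ((qn F c r φ : ℝ) : ℂ) * φ z = w1 z + w2 z := by
    intro z
    rw [hq, ← hREP Γ F c r s φ hΓ hF hc hφ z, hw1, hw2]
    unfold sy
    rw [← integral_add (hpI _ hv1m hv1b z) (hpI _ hv2m hv2b z)]
    refine integral_congr_ae (Eventually.of_forall fun g => ?_)
    change b g * _ = B.indicator b g * _ + Bᶜ.indicator b g * _
    rw [← add_mul]
    congr 1
    exact (indicator_self_add_compl_apply B b g).symm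
  have hq0 : 0 ≤ qn F c r φ := by
    unfold qn iR
    exact integral_nonneg fun g => sq_nonneg _
  -- the pointwise bound
  have hWI : ∀ (w : ℍ → ℂ), InvC Γ w → ∀ h : SL(2, ℝ), Integrable (fun z : ℍ => pk r c' z * w (h • z)) := by
    intro w hw h
    have h1 : Continuous (fun z : ℍ => pk r c' z * w (h • z)) :=
      hcont'.mul (hw.1.comp (continuous_const_smul h))
    exact h1.integrable_of_hasCompactSupport (hsupp'.mul_right)
  have hpt : ∀ h, qn F c r φ * ‖Wf (pk r c') φ h‖ ≤ ‖Wf (pk r c') w1 h‖ + ‖Wf (pk r c') w2 h‖ := by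
    intro h
    have h1 : ((qn F c r φ : ℝ) : ℂ) * Wf (pk r c') φ h = Wf (pk r c') w1 h + Wf (pk r c') w2 h := by
      unfold Wf
      rw [← integral_add (hWI w1 w1I h) (hWI w2 w2I h), ← integral_const_mul]
      refine integral_congr_ae (Eventually.of_forall fun z => ?_)
      change ((qn F c r φ : ℝ) : ℂ) * (pk r c' z * φ (h • z)) = pk r c' z * w1 (h • z) + pk r c' z * w2 (h • z)
      rw [← mul_add, ← hsum]
      ring
    have h2 : ‖((qn F c r φ : ℝ) : ℂ) * Wf (pk r c') φ h‖ = qn F c r φ * ‖Wf (pk r c') φ h‖ := by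
      rw [norm_mul, Complex.norm_real, Real.norm_of_nonneg hq0]
    rw [← h2, h1]
    exact norm_add_le _ _
  -- norms
  have hW : ∀ (w : ℍ → ℂ), InvC Γ w → Measurable (fun h => ‖Wf (pk r c') w h‖) ∧
      ∃ m : ℝ, ∀ h, |‖Wf (pk r c') w h‖| ≤ m := by
    intro w hw
    have h1 := (hGWB Γ _ _ hΓ hcont' hsupp' hw).1
    obtain ⟨k, hk⟩ := (hGBD Γ ℂ _ hΓ h1).1
    exact ⟨h1.1.norm.measurable, k, fun h => by rw [abs_norm]; exact hk h⟩
  have hmk := AS1_mink (mG.restrict (dG F ∩ D)) (fun h => ‖Wf (pk r c') w1 h‖) (fun h => ‖Wf (pk r c') w2 h‖)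
    (fun h => qn F c r φ * ‖Wf (pk r c') φ h‖) (hW w1 w1I).1 (hW w2 w2I).1 (hW w1 w1I).2 (hW w2 w2I).2
    (fun h => mul_nonneg hq0 (norm_nonneg _)) hpt
  have e0 : Real.sqrt (∫ h in dG F ∩ D, (qn F c r φ * ‖Wf (pk r c') φ h‖) ^ 2 ∂mG) =
      qn F c r φ * Real.sqrt (∫ h in dG F ∩ D, ‖Wf (pk r c') φ h‖ ^ 2 ∂mG) := by
    have h1 : (fun h => (qn F c r φ * ‖Wf (pk r c') φ h‖) ^ 2) =
        fun h => qn F c r φ ^ 2 * ‖Wf (pk r c') φ h‖ ^ 2 := by
      funext h; ring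
    rw [h1, integral_const_mul, Real.sqrt_mul (sq_nonneg _), Real.sqrt_sq hq0]
  have hind : ∀ A : Set SL(2, ℝ), MeasurableSet A → iR F (fun g => ‖A.indicator b g‖ ^ 2) =
      ∫ g in dG F ∩ A, ‖b g‖ ^ 2 ∂mG := by
    intro A hA
    unfold iR
    rw [← setIntegral_indicator hA]
    refine integral_congr_ae (Eventually.of_forall fun g => ?_)
    by_cases h : g ∈ A
    · simp only [indicator_of_mem h]
    · simp only [indicator_of_notMem h, norm_zero]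
      norm_num
  have b1 : ∫ h in dG F ∩ D, ‖Wf (pk r c') w1 h‖ ^ 2 ∂mG ≤ S1 * S2 * ∫ g in dG F ∩ B, ‖b g‖ ^ 2 ∂mG := by
    have h1 := hSCH Γ F (pk r c) (pk r c') (B.indicator b) B D S1 S2 hΓ hF hcont hsupp hcont' hsupp' hv1m
      ⟨m, hv1b⟩ hv1i hB hD hDi (fun g hg => by
        by_contra h
        exact hg (indicator_of_notMem h _)) hS1 hS2 hk1 hk2
    rw [hind B hB] at h1
    exact h1
  have b2 : ∫ h in dG F ∩ D, ‖Wf (pk r c') w2 h‖ ^ 2 ∂mG ≤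
      (1 + η) / r * ((1 + η) / r * ∫ g in dG F \ B, ‖b g‖ ^ 2 ∂mG) := by
    have h1 : ∫ h in dG F ∩ D, ‖Wf (pk r c') w2 h‖ ^ 2 ∂mG ≤ ∫ h in dG F, ‖Wf (pk r c') w2 h‖ ^ 2 ∂mG := by
      refine setIntegral_mono_set ?_ (Eventually.of_forall fun g => sq_nonneg _) (Eventually.of_forall fun g hg => hg.1)
      have h2 : (fun h => ‖Wf (pk r c') w2 h‖ ^ 2) = fun h => ‖Wf (pk r c') w2 h‖ * ‖Wf (pk r c') w2 h‖ := by
        funext h; ring
      rw [h2]
      exact AS1_int (mG.restrict (dG F)) _ ((hW w2 w2I).1.mul (hW w2 w2I).1) (AS1_mul (hW w2 w2I).2 (hW w2 w2I).2)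
    have h2 := hfr' w2 w2I
    rw [hind Bᶜ hB.compl, ← sdiff_eq] at w2n
    have h3 : qn F c' r w2 = ∫ h in dG F, ‖Wf (pk r c') w2 h‖ ^ 2 ∂mG := rfl
    rw [← h3] at h1
    exact h1.trans (h2.trans (mul_le_mul_of_nonneg_left w2n hκ))
  have hfinal : qn F c r φ * Real.sqrt (∫ h in dG F ∩ D, ‖Wf (pk r c') φ h‖ ^ 2 ∂mG) ≤
      Real.sqrt (S1 * S2 * ∫ g in dG F ∩ B, ‖b g‖ ^ 2 ∂mG) +
        Real.sqrt ((1 + η) / r * ((1 + η) / r * ∫ g in dG F \ B, ‖b g‖ ^ 2 ∂mG)) := by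
    rw [← e0]
    exact hmk.trans (add_le_add (Real.sqrt_le_sqrt b1) (Real.sqrt_le_sqrt b2))
  exact AS1_num r _ _ _ _ η S1 S2 hr hη hS1 hS2 (integral_nonneg fun g => sq_nonneg _) hfinal

end Pool.Agent.MS
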